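import Pool.Agent.N725.SQ.OppMain

/-!
# The end points of Oppermann's intervals, far from all primes, at products and bilinear forms on arbitrary sets

Oppermann's conjecture: for every `x > 1` there are primes in `(x² - x, x²)` and in `(x², x² + x)`. Let
`R(x) = log x (log₂ x) ^ 2 log₄ x / (log₃ x) ^ 2` be the record length of Ford, Green, Konyagin, Maynard and Tao.
By the starting file `EndpointsInLongGaps` all three end points `x² - x, x², x² + x` have no prime within
`c R(X)`, for `J` consecutive `x`, for some `x` in every interval (and for many `x ≤ X`). Here this is shown for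
`x` of ADDITIVE OR MULTIPLICATIVE ORIGIN: the residues modulo a large prime `p` of sums and products, or of
arbitrary bilinear forms, of the elements of ARBITRARY sets.

Precisely (`result`), let `k ≥ 1` and `0 < δ ≤ 1`. There is `κ > 0` such that the following holds for all large
primes `p`. Let `T₁, ..., T_k` be matrices of size `d` modulo `p` all of whose nontrivial linear combinations
have rank at least `ρ`, let `A` and `B` be arbitrary sets of vectors of length `d` modulo `p`, `φ_j`, `ψ_j` arbitrary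
functions, and let `∏ (M_j, M_j + L_j]` be a box with sides between `p^δ` and `p` and volume `V` with
`V² |A| |B| p^ρ ≥ p^(2k + 2d + δ)`. If `J² ≤ κ log p` and `D J ≤ κ R(p)`, then for at least `V |A| |B| / p^(k + δ)`
pairs `(a, b)` in `A × B` the box contains integers `n_j ≡ a · T_j b + φ_j(a) + ψ_j(b) (mod p)` such that NO prime
lies within `D` of one of the numbers `x² - x, x², x² + x`, `x = n_j, n_j + 1, ..., n_j + J - 1`, `|x| > p^δ`.

For `k = d = 1` (`products`): for arbitrary sets `A, B` of residues modulo `p` and every interval of length `L` with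
`p^δ ≤ L ≤ p` and `L² |A| |B| ≥ p^(3 + δ)`, there are at least `L |A| |B| / p^(1 + δ)` pairs `(a, b)` such that the
integer `n ≡ a b (mod p)` of the interval has this property; for `L = p` it is enough that
`|A| |B| ≥ p^(1 + δ)`.

Proof (`Pool.Agent.N725.SQ`). The covering sieve for the polynomials `(X + h)² + a` and well distributed families
of integer vectors (`Pool.Agent.N542.PV`, helper542, after helper201 and the starting files) is applied to the
family `2 n_j - 1 + P - ε_j`, `P` the product of the odd primes up to a small power of `p`, `ε_j ∈ {0, 1}`, which is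
also well distributed modulo powers of two; this makes the end points `x² ± x` accessible. The family `(n_j)` is well
distributed by the bilinear estimate of helper389 (`MP_3bc45c_nt.BilinearFormsModuloPrimes`).
-/

set_option autoImplicit false

namespace Pool.Agent.Results.MP_bf4c7f_nt.EndpointsOnArbitrarySets

open Finset Filter Matrix

/-- the record length `R(x) = log x (log₂ x) ^ 2 log₄ x / (log₃ x) ^ 2` -/
noncomputable def R (x : ℝ) : ℝ :=
  Real.log x * (Real.log (Real.log x)) ^ 2 * Real.log (Real.log (Real.log (Real.log x))) /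
    (Real.log (Real.log (Real.log x))) ^ 2

/-- no prime lies within `D` of `m` -/
def Isolated (D : ℕ) (m : ℤ) : Prop := ∀ q : ℕ, q.Prime → (D : ℤ) < |(q : ℤ) - m|

/-- no prime lies within `D` of the end points `x² - x, x², x² + x` of Oppermann's intervals -/
def Endpoints (D : ℕ) (x : ℤ) : Prop :=
  Isolated D (x ^ 2 - x) ∧ Isolated D (x ^ 2) ∧ Isolated D (x ^ 2 + x)

open Classical in
/-- The main theorem. -/
theorem result (k : ℕ) (hk : 1 ≤ k) (δ : ℝ) (hδ : 0 < δ) (hδ1 : δ ≤ 1) :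
    ∃ κ : ℝ, 0 < κ ∧ ∀ᶠ p : ℕ in atTop, p.Prime → ∀ (d ρ : ℕ)
      (T : Fin k → Matrix (Fin d) (Fin d) (ZMod p)),
      (∀ h : Fin k → ZMod p, h ≠ 0 → ρ ≤ (∑ j, h j • T j).rank) →
      ∀ (A B : Finset (Fin d → ZMod p)) (φ ψ : Fin k → (Fin d → ZMod p) → ZMod p)
        (M : Fin k → ℤ) (L : Fin k → ℕ), (∀ i, (p : ℝ) ^ δ ≤ L i ∧ L i ≤ p) →
      (p : ℝ) ^ (2 * k + 2 * d + δ) ≤ (∏ i, (L i : ℝ)) ^ 2 * (A.card * B.card) * (p : ℝ) ^ ρ →
      ∀ (J D : ℕ), (J : ℝ) ^ 2 ≤ κ * Real.log p → (D : ℝ) * J ≤ κ * R p →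
      (∏ i, (L i : ℝ)) * (A.card * B.card) / (p : ℝ) ^ (k + δ) ≤
        ({x : (Fin d → ZMod p) × (Fin d → ZMod p) | x.1 ∈ A ∧ x.2 ∈ B ∧
          ∃ n : Fin k → ℤ, (∀ i, M i < n i ∧ n i ≤ M i + L i ∧
            ((n i : ℤ) : ZMod p) = x.1 ⬝ᵥ (T i *ᵥ x.2) + φ i x.1 + ψ i x.2) ∧
          ∀ i, ∀ t : ℕ, t < J → (p : ℝ) ^ δ < |((n i + t : ℤ) : ℝ)| →
            Endpoints D (n i + t)}.ncard : ℝ) := by
  obtain ⟨κ, hκ, hev⟩ := Pool.Agent.N725.SQ.bil_opp k hk δ hδ hδ1
  refine ⟨κ, hκ, ?_⟩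
  filter_upwards [hev] with p hp
  intro hpp d ρ T hT A B φ ψ M L hL hV J D hJ hD
  haveI : Fact p.Prime := ⟨hpp⟩
  refine (hp d ρ T hT A B φ ψ M L hL hV J D hJ hD).trans ?_
  rw [Nat.cast_le, ← Set.ncard_coe_finset]
  apply Set.ncard_le_ncard _ (Set.toFinite _)
  intro x hx
  rw [Finset.mem_coe, mem_filter, mem_product] at hx
  obtain ⟨⟨hx1, hx2⟩, hx3, hx4⟩ := hx
  refine ⟨hx1, hx2, _, hx3, ?_⟩
  intro i t ht hbig
  refine ⟨fun q hq => ?_, fun q hq => ?_, fun q hq => ?_⟩
  · have h1 := hx4 i t ht hbig (-1) (by norm_num) (by norm_num) q hq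
    rwa [neg_one_mul, ← sub_eq_add_neg] at h1
  · have h1 := hx4 i t ht hbig 0 (by norm_num) (by norm_num) q hq
    rwa [zero_mul, add_zero] at h1
  · have h1 := hx4 i t ht hbig 1 (by norm_num) (by norm_num) q hq
    rwa [one_mul] at h1

open Classical in
/-- Products of the elements of arbitrary sets of residues. -/
theorem products (δ : ℝ) (hδ : 0 < δ) (hδ1 : δ ≤ 1) :
    ∃ κ : ℝ, 0 < κ ∧ ∀ᶠ p : ℕ in atTop, p.Prime → ∀ (A B : Finset (ZMod p)) (M : ℤ) (L : ℕ),
      (p : ℝ) ^ δ ≤ L → L ≤ p → (p : ℝ) ^ (3 + δ) ≤ (L : ℝ) ^ 2 * (A.card * B.card) →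
      ∀ D : ℕ, (D : ℝ) ≤ κ * R p →
      (L : ℝ) * (A.card * B.card) / (p : ℝ) ^ (1 + δ) ≤
        ({x : ZMod p × ZMod p | x.1 ∈ A ∧ x.2 ∈ B ∧
          ∃ n : ℤ, M < n ∧ n ≤ M + L ∧ ((n : ℤ) : ZMod p) = x.1 * x.2 ∧
            ((p : ℝ) ^ δ < |(n : ℝ)| → Endpoints D n)}.ncard : ℝ) := by
  obtain ⟨κ, hκ, hev⟩ := result 1 le_rfl δ hδ hδ1
  have hT : Tendsto (fun p : ℕ => (p : ℝ)) atTop atTop := tendsto_natCast_atTop_atTop
  refine ⟨κ, hκ, ?_⟩
  filter_upwards [hev, hT.eventually (Real.tendsto_log_atTop.eventually_ge_atTop (1 / κ))] with p hp hlog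
  intro hpp A B M L hL1 hL2 hV D hD
  rw [div_le_iff₀ hκ] at hlog
  haveI : Fact p.Prime := ⟨hpp⟩
  have hp0 : (0 : ℝ) < p := by exact_mod_cast hpp.pos
  have hinj : Function.Injective (fun (a : ZMod p) (_ : Fin 1) => a) := fun a b h => congrFun h 0
  have h1 := hp hpp 1 1 (fun _ => (1 : Matrix (Fin 1) (Fin 1) (ZMod p))) (by
      intro h hh
      rw [Fin.sum_univ_one]
      have h0 : h 0 ≠ 0 := by
        intro h0
        apply hh
        funext i
        rw [Subsingleton.elim i 0, h0]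
        rfl
      have h2 : (h 0 • (1 : Matrix (Fin 1) (Fin 1) (ZMod p))).rank = 1 := by
        have h3 : IsUnit (h 0 • (1 : Matrix (Fin 1) (Fin 1) (ZMod p))) := by
          rw [Matrix.isUnit_iff_isUnit_det, Matrix.det_smul]
          simp [h0]
        have h4 := Matrix.rank_of_isUnit _ h3
        rw [h4, Fintype.card_fin]
      rw [h2])
    (A.map ⟨_, hinj⟩) (B.map ⟨_, hinj⟩) (fun _ _ => 0) (fun _ _ => 0) (fun _ => M) (fun _ => L)
    (fun _ => ⟨hL1, hL2⟩) (by
      rw [Finset.card_map, Finset.card_map, Fin.prod_univ_one]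
      have e : (p : ℝ) ^ (2 * ((1 : ℕ) : ℝ) + 2 * ((1 : ℕ) : ℝ) + δ) = (p : ℝ) ^ (3 + δ) * (p : ℝ) ^ 1 := by
        rw [pow_one]
        nth_rewrite 3 [← Real.rpow_one (p : ℝ)]
        rw [← Real.rpow_add hp0]
        congr 1
        push_cast
        ring
      rw [e]
      exact mul_le_mul_of_nonneg_right hV (by positivity)) 1 D (by
        rw [Nat.cast_one, one_pow]; linarith) (by rw [Nat.cast_one, mul_one]; exact hD)
  rw [Finset.card_map, Finset.card_map, Fin.prod_univ_one, Nat.cast_one] at h1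
  refine h1.trans ?_
  rw [Nat.cast_le]
  have hinj2 : Set.InjOn (fun x : (Fin 1 → ZMod p) × (Fin 1 → ZMod p) => (x.1 0, x.2 0)) Set.univ := by
    rintro ⟨a, b⟩ _ ⟨a', b'⟩ _ h
    simp only [Prod.mk.injEq] at h
    refine Prod.ext ?_ ?_
    · funext i
      rw [Subsingleton.elim i 0]
      exact h.1
    · funext i
      rw [Subsingleton.elim i 0]
      exact h.2
  refine Set.ncard_le_ncard_of_injOn (fun x => (x.1 0, x.2 0)) ?_ (hinj2.mono (Set.subset_univ _))
    (Set.toFinite _)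
  rintro ⟨a, b⟩ ⟨ha, hb, n, hn1, hn2⟩
  rw [Finset.mem_map] at ha hb
  obtain ⟨a₀, ha₀, rfl⟩ := ha
  obtain ⟨b₀, hb₀, rfl⟩ := hb
  obtain ⟨g1, g2, g3⟩ := hn1 0
  refine ⟨ha₀, hb₀, n 0, g1, g2, ?_, ?_⟩
  · rw [g3]
    simp [dotProduct]
  · intro hbig
    have h5 := hn2 0 0 (by norm_num) (by
      rw [Nat.cast_zero, add_zero]
      exact hbig)
    rwa [Nat.cast_zero, add_zero] at h5

end Pool.Agent.Results.MP_bf4c7f_nt.EndpointsOnArbitrarySets
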