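import Mathlib
import Pool.Agent.N315.PS.TwoD

/-!
# The joint law of the primes on both sides of the squares in all sieved sequential models

The integers are decided one after the other; the multiples of the primes of a finite set `Q` are never chosen and
the conditional probability of choosing an integer `n + 1` which is not such a multiple, given the decisions up to
`n`, is asymptotic to `∏_{p ∈ Q} (1 - 1 / p)⁻¹ / log n`, almost surely.  Nothing else is assumed: no independence and
no rate of convergence.  For `Q = ∅` the independent model of Cramér and the random sieve of Hawkins are examples.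

Oppermann's conjecture asks for a prime close to `n ²` on each side. In the models, almost surely, the distances from
`n ²` to the last chosen integer below `n ²` and to the first chosen integer above `n ²`, divided by `2 log n`, are
asymptotically INDEPENDENT with exponential distributions of mean one (over the integers `n`), and the numbers of
the chosen integers in `[n ² - 2 α log n, n ²)` and in `(n ², n ² + 2 β log n]` are asymptotically independent with
Poisson distributions of parameters `α` and `β`.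

The same joint law holds for every sequence of integers `x_0 < x_1 < ...` with `(x_(n+1) - x_n) / log x_(n+1) → ∞` in
place of the squares (for instance the sequence of all squares and all pronic numbers, the ends of Oppermann's
intervals).

Proof. The conditional probability of exactly `r` successes in the left window and exactly `s` successes in the right
window is bounded from above by the product of the exact limits. An exponential inequality for pairs of windows which
do not overlap gives the upper frequencies of all pairs `(r, s)`, almost surely; as the limits have the sum one,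
these are the frequencies.
-/

set_option autoImplicit false

open MeasureTheory Filter Set ProbabilityTheory Polynomial
open scoped Topology

namespace Pool.Agent.Results.MP_bf4c7f_nt.JointLaw

variable {Ω : Type}

/-- `A n` is the event that `n` is chosen; adapted to `ℱ`; multiples of the primes in `Q` are not
chosen; the conditional probability of `A (n + 1)` given `ℱ n`, times `log n`, tends almost surely to
`∏_{p ∈ Q} (1 - 1 / p)⁻¹` along the `n` such that no `p ∈ Q` divides `n + 1` -/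
def SievedModel [m : MeasurableSpace Ω] (μ : Measure Ω) (ℱ : Filtration ℕ m)
    (A : ℕ → Set Ω) (Q : Finset ℕ) : Prop :=
  (∀ n, MeasurableSet[ℱ n] (A n)) ∧ (∀ n, (∃ p ∈ Q, p ∣ n) → A n = ∅) ∧
  ∀ᵐ ω ∂μ, Tendsto (fun n : ℕ => (μ[(A (n + 1)).indicator (fun _ => (1 : ℝ)) | ℱ n]) ω * Real.log n)
    (atTop ⊓ 𝓟 {n : ℕ | ∀ p ∈ Q, ¬ p ∣ n + 1}) (𝓝 (∏ p ∈ Q, (1 - 1 / (p : ℝ))⁻¹))

/-- The model of Cramér: independent events, `n` is chosen with probability `1 / log n` for `n ≥ 3`. -/
def CramerModel [MeasurableSpace Ω] (μ : Measure Ω) (A : ℕ → Set Ω) : Prop :=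
  (∀ n, MeasurableSet (A n)) ∧ iIndepSet A μ ∧ ∀ n : ℕ, 3 ≤ n → μ (A n) = ENNReal.ofReal (1 / Real.log n)

open Classical in
/-- The random sieve of Hawkins: `2` is chosen, and given the decisions up to `n ≥ 2` the number
`n + 1` is chosen with probability `∏ (1 - 1 / h)`, the product over the chosen `2 ≤ h ≤ n`. -/
def HawkinsSieve [m : MeasurableSpace Ω] (μ : Measure Ω) (ℱ : Filtration ℕ m) (A : ℕ → Set Ω) : Prop :=
  (∀ n, MeasurableSet[ℱ n] (A n)) ∧ A 2 = univ ∧
  ∀ n, 2 ≤ n → μ[(A (n + 1)).indicator (fun _ => (1 : ℝ)) | ℱ n] =ᵐ[μ]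
    fun ω => ∏ h ∈ Finset.Icc 2 n, if ω ∈ A h then 1 - 1 / (h : ℝ) else 1

/-- the distance from `n ²` to the greatest element of `S` less than `n ²` -/
noncomputable def below (S : Set ℕ) (n : ℕ) : ℕ := n ^ 2 - sSup {q | q ∈ S ∧ q < n ^ 2}

/-- the distance from `n ²` to the least element of `S` greater than `n ²` -/
noncomputable def above (S : Set ℕ) (n : ℕ) : ℕ := sInf {q | q ∈ S ∧ n ^ 2 < q} - n ^ 2

/-- the number of the elements of `M` in `[x - y, x)` -/
noncomputable def left (M : Set ℕ) (x : ℕ) (y : ℝ) : ℕ := {q : ℕ | q ∈ M ∧ q < x ∧ (x : ℝ) - y ≤ q}.ncard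

/-- the number of the elements of `M` in `(x, x + y]` -/
noncomputable def right (M : Set ℕ) (x : ℕ) (y : ℝ) : ℕ := {q : ℕ | q ∈ M ∧ x < q ∧ (q : ℝ) ≤ x + y}.ncard

/-- the probability of `r` in the Poisson distribution with parameter `lam` -/
noncomputable def poisson (lam : ℝ) (r : ℕ) : ℝ := lam ^ r / (r.factorial : ℝ) * Real.exp (-lam)

/-- the proportion of the `n < N` with the property `B` tends to `q` -/
def Proportion (B : ℕ → Prop) (q : ℝ) : Prop :=
  Tendsto (fun N : ℕ => ({n : ℕ | n < N ∧ B n}.ncard : ℝ) / N) atTop (𝓝 q)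

open Pool.Agent.N740.HK Pool.Agent.R528.RM Pool.Agent.N315.CC Pool.Agent.N315.PL Pool.Agent.N315.PS

lemma prod_inv (A : ℕ → Set Ω) (n : ℕ) (ω : Ω) [DecidablePred fun h => ω ∈ A h] :
    (∏ h ∈ Finset.Icc 2 n, if ω ∈ A h then 1 - 1 / (h : ℝ) else 1) = (Y A n ω)⁻¹ := by
  unfold Y
  rw [← Finset.prod_inv_distrib]
  refine Finset.prod_congr rfl fun h hh => ?_
  have h2 : (2 : ℝ) ≤ h := by exact_mod_cast (Finset.mem_Icc.1 hh).1
  by_cases hA : ω ∈ A h
  · rw [if_pos hA, if_pos hA, inv_div]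
    field_simp
  · rw [if_neg hA, if_neg hA, inv_one]

lemma log_ratio : Tendsto (fun n : ℕ => (Real.log ((n + 1 : ℕ) : ℝ))⁻¹ * Real.log n) atTop (𝓝 1) := by
  have h1 : Tendsto (fun n : ℕ => Real.log ((n : ℝ) + 1) - Real.log n) atTop (𝓝 0) := by
    have h1 : Tendsto (fun n : ℕ => 1 + (1 : ℝ) / n) atTop (𝓝 (1 + 0)) :=
      tendsto_const_nhds.add tendsto_one_div_atTop_nhds_zero_nat
    rw [add_zero] at h1
    have h2 := (Real.continuousAt_log (one_ne_zero)).tendsto.comp h1
    rw [Real.log_one] at h2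
    refine h2.congr' ?_
    filter_upwards [eventually_gt_atTop 0] with n hn
    have hn' : (0 : ℝ) < n := by exact_mod_cast hn
    show Real.log (1 + 1 / (n : ℝ)) = _
    rw [← Real.log_div (by positivity) hn'.ne']
    congr 1
    field_simp
  have h2 : Tendsto (fun n : ℕ => Real.log ((n : ℝ) + 1)) atTop atTop :=
    Real.tendsto_log_atTop.comp (tendsto_atTop_add_const_right _ _ tendsto_natCast_atTop_atTop)
  have h3 := h1.div_atTop h2
  have h4 : Tendsto (fun n : ℕ => 1 - (Real.log ((n : ℝ) + 1) - Real.log n) / Real.log ((n : ℝ) + 1)) atTop (𝓝 (1 - 0)) :=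
    tendsto_const_nhds.sub h3
  rw [sub_zero] at h4
  refine h4.congr' ?_
  filter_upwards [h2.eventually_gt_atTop 0] with n hn
  push_cast
  field_simp
  ring

lemma sieved_of_seq [m : MeasurableSpace Ω] {μ : Measure Ω} {ℱ : Filtration ℕ m} {A : ℕ → Set Ω}
    (h1 : ∀ n, MeasurableSet[ℱ n] (A n))
    (h2 : ∀ᵐ ω ∂μ, Tendsto (fun n : ℕ => (μ[(A (n + 1)).indicator (fun _ => (1 : ℝ)) | ℱ n]) ω * Real.log n) atTop (𝓝 1)) :
    SievedModel μ ℱ A ∅ := by
  refine ⟨h1, fun n hn => ?_, ?_⟩
  · obtain ⟨p, hp, _⟩ := hn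
    exact absurd hp (Finset.notMem_empty p)
  · filter_upwards [h2] with ω hω
    rw [Finset.prod_empty]
    exact hω.mono_left inf_le_left

lemma prop_of {E : Set ℕ} {B : ℕ → Prop} (h : ∀ n, n ∈ E ↔ B n) {q : ℝ}
    (hE : Tendsto (fun X : ℕ => (cn E X : ℝ) / X) atTop (𝓝 q)) : Proportion B q := by
  refine hE.congr fun X => ?_
  rw [cn_ncard]
  congr 3
  ext n
  simp only [mem_ofPred_eq, h]

lemma prop_ev {E : Set ℕ} {B : ℕ → Prop} (h : ∀ᶠ n in atTop, n ∈ E ↔ B n) {q : ℝ}
    (hE : Tendsto (fun X : ℕ => (cn E X : ℝ) / X) atTop (𝓝 q)) : Proportion B q := by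
  obtain ⟨n₀, hn₀⟩ := eventually_atTop.1 h
  exact prop_of (E := {n | B n}) (fun n => Iff.rfl) (cn_congr_lim (n₀ := n₀) (E' := {n | B n}) (fun n hn => hn₀ n hn) hE)

lemma right_eq (M : Set ℕ) {α : ℝ} (hα : 0 ≤ α) (x : ℕ) : right M x (α * Real.log x) = wn M (LL α 1) x := by
  have := wn_ncard M hα 1 x
  rw [pow_one] at this
  exact this

lemma left_eq (M : Set ℕ) {α : ℝ} (hα : 0 ≤ α) {x : ℕ} (hx : 2 * (LL α 1 x + 1) ≤ x) :
    left M x (α * Real.log x) = wn M (fun _ => LL α 1 x) (yy α x) := by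
  classical
  unfold left wn
  rw [← Set.ncard_coe_finset]
  congr 1
  ext q
  simp only [Finset.coe_filter, Finset.mem_Ioc, Set.mem_ofPred_eq]
  have h0 : 0 ≤ α * Real.log (x : ℝ) ^ 1 := mul_nonneg hα (pow_nonneg (Real.log_natCast_nonneg x) _)
  constructor
  · rintro ⟨h1, h2, h3⟩
    have h4 : x - q ≤ LL α 1 x := by
      refine Nat.le_floor ?_
      rw [Nat.cast_sub h2.le, pow_one]
      linarith
    refine ⟨⟨?_, ?_⟩, h1⟩
    · unfold yy
      omega
    · unfold yy
      omega
  · rintro ⟨⟨h1, h2⟩, h3⟩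
    unfold yy at h1 h2
    have h4 : q < x := by omega
    have h5 : x - q ≤ LL α 1 x := by omega
    have h6 : ((x - q : ℕ) : ℝ) ≤ α * Real.log x ^ 1 := (Nat.cast_le.2 h5).trans (Nat.floor_le h0)
    rw [Nat.cast_sub h4.le, pow_one] at h6
    exact ⟨h3, h4, by linarith⟩

lemma log_sq (n : ℕ) : Real.log ((n ^ 2 : ℕ) : ℝ) = 2 * Real.log n := by
  push_cast
  rw [Real.log_pow]
  norm_num

lemma above_iff {S : Set ℕ} (hS : S.Infinite) {lam : ℝ} (hlam : 0 ≤ lam) (n : ℕ) :
    wn S (LL lam 1) (n ^ 2) = 0 ↔ lam * (2 * Real.log n) < above S n := by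
  have hne : {q | q ∈ S ∧ n ^ 2 < q}.Nonempty := by
    obtain ⟨q, hq1, hq2⟩ := hS.exists_gt (n ^ 2)
    exact ⟨q, hq1, hq2⟩
  obtain ⟨h1, h2⟩ := Nat.sInf_mem hne
  have h3 : lam * (2 * Real.log n) < above S n ↔ n ^ 2 + LL lam 1 (n ^ 2) < sInf {q | q ∈ S ∧ n ^ 2 < q} := by
    unfold above
    rw [← log_sq, ← Nat.floor_lt (mul_nonneg hlam (Real.log_natCast_nonneg _))]
    have e : ⌊lam * Real.log ((n ^ 2 : ℕ) : ℝ)⌋₊ = LL lam 1 (n ^ 2) := by
      unfold LL
      rw [pow_one]
    rw [e]
    omega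
  rw [h3, wn_zero]
  constructor
  · intro h
    by_contra hcon
    exact h _ h2 (not_lt.1 hcon) h1
  · intro h q hq1 hq2 hq3
    have := Nat.sInf_le (show q ∈ {q | q ∈ S ∧ n ^ 2 < q} from ⟨hq3, hq1⟩)
    omega

lemma below_iff {S : Set ℕ} {lam : ℝ} (hlam : 0 ≤ lam) {n : ℕ} (hx : 2 * (LL lam 1 (n ^ 2) + 1) ≤ n ^ 2) :
    wn S (fun _ => LL lam 1 (n ^ 2)) (yy lam (n ^ 2)) = 0 ↔ lam * (2 * Real.log n) < below S n := by
  have hbd : BddAbove {q | q ∈ S ∧ q < n ^ 2} := ⟨n ^ 2, fun q hq => hq.2.le⟩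
  have h3 : lam * (2 * Real.log n) < below S n ↔ LL lam 1 (n ^ 2) < n ^ 2 - sSup {q | q ∈ S ∧ q < n ^ 2} := by
    unfold below
    rw [← log_sq, ← Nat.floor_lt (mul_nonneg hlam (Real.log_natCast_nonneg _))]
    have e : ⌊lam * Real.log ((n ^ 2 : ℕ) : ℝ)⌋₊ = LL lam 1 (n ^ 2) := by
      unfold LL
      rw [pow_one]
    rw [e]
  rw [h3, wn_zero]
  generalize n ^ 2 = x at *
  have hm : sSup {q | q ∈ S ∧ q < x} < x := by
    rcases Set.eq_empty_or_nonempty {q | q ∈ S ∧ q < x} with h | h
    · rw [h]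
      simp only [csSup_empty, Nat.bot_eq_zero]
      omega
    · exact (Nat.sSup_mem h hbd).2
  constructor
  · intro h
    by_contra hcon
    have h4 : x - LL lam 1 x ≤ sSup {q | q ∈ S ∧ q < x} := by omega
    have h5 : Set.Nonempty {q | q ∈ S ∧ q < x} := by
      by_contra hne
      rw [Set.not_nonempty_iff_eq_empty] at hne
      rw [hne] at h4
      simp only [csSup_empty, Nat.bot_eq_zero] at h4
      omega
    have h6 := Nat.sSup_mem h5 hbd
    refine h _ (by unfold yy; omega) ?_ h6.1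
    show sSup {q | q ∈ S ∧ q < x} ≤ yy lam x + LL lam 1 x
    unfold yy
    omega
  · intro h q hq1 hq2 hq3
    have hq2 : q ≤ yy lam x + LL lam 1 x := hq2
    unfold yy at hq1 hq2
    have h4 : q ≤ sSup {q | q ∈ S ∧ q < x} := le_csSup hbd ⟨hq3, by omega⟩
    omega

lemma sq_growth : Tendsto (fun n : ℕ => ((((n + 1) ^ 2 : ℕ) : ℝ) - ((n ^ 2 : ℕ) : ℝ)) / Real.log (((n + 1) ^ 2 : ℕ) : ℝ)) atTop atTop := by
  have h1 : Tendsto (fun n : ℕ => (n : ℝ) / Real.log n) atTop atTop := by
    have h2 := (Real.isLittleO_log_id_atTop.tendsto_div_nhds_zero).comp tendsto_natCast_atTop_atTop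
    have h3 : Tendsto (fun n : ℕ => Real.log (n : ℝ) / (n : ℝ)) atTop (𝓝[>] 0) := by
      refine tendsto_nhdsWithin_iff.2 ⟨h2, ?_⟩
      filter_upwards [log_pos_ev, eventually_gt_atTop 0] with n hn hn0
      exact div_pos hn (by exact_mod_cast hn0)
    refine h3.inv_tendsto_nhdsGT_zero.congr fun n => ?_
    simp
  refine tendsto_atTop_mono' _ ?_ ((h1.comp (tendsto_add_atTop_nat 1)).const_mul_atTop (show (0 : ℝ) < 1 / 2 by norm_num))
  filter_upwards [(tendsto_add_atTop_nat 1).eventually log_pos_ev] with n hn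
  have hn : 0 < Real.log ((n + 1 : ℕ) : ℝ) := hn
  show 1 / 2 * (((n + 1 : ℕ) : ℝ) / Real.log ((n + 1 : ℕ) : ℝ)) ≤ _
  rw [log_sq (n + 1)]
  have h5 : ((((n + 1) ^ 2 : ℕ) : ℝ) - ((n ^ 2 : ℕ) : ℝ)) = 2 * n + 1 := by
    push_cast
    ring
  rw [h5, show 1 / 2 * (((n + 1 : ℕ) : ℝ) / Real.log ((n + 1 : ℕ) : ℝ)) = ((n + 1 : ℕ) : ℝ) / (2 * Real.log ((n + 1 : ℕ) : ℝ)) by field_simp]
  refine div_le_div_of_nonneg_right ?_ (by positivity)
  push_cast
  have : (0 : ℝ) ≤ n := Nat.cast_nonneg n
  linarith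

end Pool.Agent.Results.MP_bf4c7f_nt.JointLaw

open Pool.Agent.Results.MP_bf4c7f_nt.JointLaw Pool.Agent.N740.HK Pool.Agent.R528.RM Pool.Agent.N315.PS Pool.Agent.N315.CC Pool.Agent.N315.PL Polynomial

/-- The model of Cramér (for some filtration) and the random sieve of Hawkins are sieved models with `Q = ∅`.
In every sieved model: (1) almost surely there are infinitely many chosen integers and for all `α, β > 0` the
proportion of the `n < N` such that the last chosen integer below `n ²` has a distance from `n ²` greater than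
`2 α log n` and the first chosen integer above `n ²` has a distance from `n ²` greater than `2 β log n` tends to
`exp (-(α + β))`, and the proportion of the `n < N` with exactly `r` chosen integers in `[n ² - 2 α log n, n ²)` and
exactly `s` chosen integers in `(n ², n ² + 2 β log n]` tends to the product of the Poisson probabilities, for all
`r` and `s`; (2) for every strictly increasing sequence `x` with `(x (n + 1) - x n) / log (x (n + 1)) → ∞`, almost
surely, for all `α, β > 0` and all `r, s`, the proportion of the `n < N` with exactly `r` chosen integers in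
`[x n - α log (x n), x n)` and exactly `s` chosen integers in `(x n, x n + β log (x n)]` tends to the product of the
Poisson probabilities. -/
theorem Pool.Agent.Results.MP_bf4c7f_nt.JointLaw.result
    {Ω : Type} [m : MeasurableSpace Ω] (μ : Measure Ω) [IsProbabilityMeasure μ] (A : ℕ → Set Ω) :
    (CramerModel μ A → ∃ ℱ : Filtration ℕ m, SievedModel μ ℱ A ∅) ∧
    (∀ ℱ : Filtration ℕ m, HawkinsSieve μ ℱ A → SievedModel μ ℱ A ∅) ∧
    (∀ (ℱ : Filtration ℕ m) (Q : Finset ℕ), (∀ p ∈ Q, p.Prime) → SievedModel μ ℱ A Q →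
      (∀ᵐ ω ∂μ, {n | ω ∈ A n}.Infinite ∧ ∀ α β : ℝ, 0 < α → 0 < β →
        Proportion (fun n => α * (2 * Real.log n) < below {n | ω ∈ A n} n ∧ β * (2 * Real.log n) < above {n | ω ∈ A n} n)
          (Real.exp (-(α + β))) ∧
        ∀ r s : ℕ, Proportion (fun n => left {n | ω ∈ A n} (n ^ 2) (α * (2 * Real.log n)) = r ∧
          right {n | ω ∈ A n} (n ^ 2) (β * (2 * Real.log n)) = s) (poisson α r * poisson β s)) ∧
      (∀ x : ℕ → ℕ, StrictMono x → Tendsto (fun n : ℕ => ((x (n + 1) : ℝ) - x n) / Real.log (x (n + 1))) atTop atTop →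
        ∀ᵐ ω ∂μ, ∀ α β : ℝ, 0 < α → 0 < β → ∀ r s : ℕ,
          Proportion (fun n => left {n | ω ∈ A n} (x n) (α * Real.log (x n)) = r ∧
            right {n | ω ∈ A n} (x n) (β * Real.log (x n)) = s) (poisson α r * poisson β s))) := by
  classical
  refine ⟨?_, ?_, ?_⟩
  · rintro ⟨hA, hi, hp⟩
    refine ⟨gen hA, sieved_of_seq (gen_meas hA) ?_⟩
    have h1 : ∀ᵐ ω ∂μ, ∀ n, (μ[(A (n + 1)).indicator (fun _ => (1 : ℝ)) | gen hA n]) ω =
        (μ (A (n + 1))).toReal := ae_all_iff.2 fun n => dens_gen hA hi n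
    filter_upwards [h1] with ω hω
    refine log_ratio.congr' ?_
    filter_upwards [eventually_ge_atTop 2] with n hn
    rw [hω, hp (n + 1) (by omega), ENNReal.toReal_ofReal, one_div]
    have : 0 ≤ Real.log ((n + 1 : ℕ) : ℝ) := Real.log_natCast_nonneg _
    positivity
  · rintro ℱ ⟨h1, h2, h3⟩
    have hs : Pool.Agent.N740.HK.HS μ ℱ A := ⟨h1, h2, fun n hn => by
      filter_upwards [h3 n hn] with ω hω
      rw [← prod_inv]
      exact hω⟩
    exact sieved_of_seq h1 (Pool.Agent.N740.HK.hawk_dens hs)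
  · rintro ℱ Q hQ ⟨hA, hcop, hd⟩
    have key : ∀ x : ℕ → ℕ, StrictMono x → Tendsto (fun n : ℕ => ((x (n + 1) : ℝ) - x n) / Real.log (x (n + 1))) atTop atTop →
        ∀ᵐ ω ∂μ, ∀ α β : ℝ, 0 < α → 0 < β → ∀ r s : ℕ,
          Proportion (fun n => left {n | ω ∈ A n} (x n) (α * Real.log (x n)) = r ∧
            right {n | ω ∈ A n} (x n) (β * Real.log (x n)) = s) (poisson α r * poisson β s) := by
      intro x hx hgr
      filter_upwards [two_full (μ := μ) (ℱ := ℱ) hA Q hQ hcop hd hx hgr] with ω g1 α β hα hβ r s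
      refine prop_ev ?_ (g1 α β hα hβ r s)
      filter_upwards [hx.tendsto_atTop.eventually (LL_small hα.le)] with n hn
      rw [left_eq _ hα.le hn, right_eq _ hβ.le]
    refine ⟨?_, key⟩
    have hsq : StrictMono (fun n : ℕ => n ^ 2) := fun u v huv => Nat.pow_lt_pow_left huv (by norm_num)
    filter_upwards [two_full (μ := μ) (ℱ := ℱ) hA Q hQ hcop hd hsq sq_growth, key _ hsq sq_growth,
      full (μ := μ) (ℱ := ℱ) hA Q hQ hcop hd] with ω g1 g3 g2
    set S : Set ℕ := {n | ω ∈ A n} with hS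
    have hC : bc Q (sh {0}) = 1 := by rw [sh_const Q hQ, sc_zero Q hQ]
    have hinf : S.Infinite := by
      have h1 := (g2 (sh {0}) (sh_deg _)).1
      rw [hC, PM_sh, TD_zero] at h1
      exact inf_of_count one_pos h1
    refine ⟨hinf, fun α β hα hβ => ⟨?_, fun r s => ?_⟩⟩
    · have h1 := g1 α β hα hβ 0 0
      have h2 : po α 0 * po β 0 = Real.exp (-(α + β)) := by
        simp only [po, pow_zero, Nat.factorial_zero, Nat.cast_one, div_one, one_mul]
        rw [← Real.exp_add, neg_add]
      rw [h2] at h1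
      refine prop_ev ?_ h1
      filter_upwards [hsq.tendsto_atTop.eventually (LL_small hα.le)] with n hn
      exact and_congr (below_iff hα.le hn) (above_iff hinf hβ.le n)
    · have h1 := g3 α β hα hβ r s
      have e : ∀ n : ℕ, Real.log ((n ^ 2 : ℕ) : ℝ) = 2 * Real.log n := log_sq
      simp only [e] at h1
      exact h1
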