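import Mathlib
import Pool.Agent.N740.HK.Opp
import Pool.Agent.N740.HK.Sch

/-!
# Oppermann's intervals in all sequential random models of the primes

The integers are decided one after the other and the conditional probability of choosing `n + 1`,
given the decisions up to `n`, is asymptotic to `1 / log n`, almost surely.  Nothing else is assumed:
no independence and no rate of convergence.  The independent model of Cramér and the random sieve of
Hawkins are examples.  The joint limit set of the normalised numbers of chosen integers in the two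
intervals of Oppermann is the closed unit disc.
-/

set_option autoImplicit false

open MeasureTheory Filter Set ProbabilityTheory
open scoped Topology

namespace Pool.Agent.Results.MP_bf4c7f_nt.UnitDisc

variable {Ω : Type}

/-- `A n` is the event that `n` is chosen.  The events are adapted to the filtration `ℱ` and the
conditional probability of `A (n + 1)` given `ℱ n`, times `log n`, tends to `1` almost surely. -/
def SequentialModel [m : MeasurableSpace Ω] (μ : Measure Ω) (ℱ : Filtration ℕ m) (A : ℕ → Set Ω) : Prop :=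
  (∀ n, MeasurableSet[ℱ n] (A n)) ∧
  ∀ᵐ ω ∂μ, Tendsto (fun n : ℕ => (μ[(A (n + 1)).indicator (fun _ => (1 : ℝ)) | ℱ n]) ω * Real.log n) atTop (𝓝 1)

/-- The model of Cramér: independent events, `n` is chosen with probability `1 / log n` for `n ≥ 3`. -/
def CramerModel [MeasurableSpace Ω] (μ : Measure Ω) (A : ℕ → Set Ω) : Prop :=
  (∀ n, MeasurableSet (A n)) ∧ iIndepSet A μ ∧ ∀ n : ℕ, 3 ≤ n → μ (A n) = ENNReal.ofReal (1 / Real.log n)

open Classical in
/-- The random sieve of Hawkins: `2` is chosen, and given the decisions up to `n ≥ 2` the number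
`n + 1` is chosen with probability `∏ (1 - 1 / h)`, the product over the chosen `2 ≤ h ≤ n`. -/
def HawkinsSieve [m : MeasurableSpace Ω] (μ : Measure Ω) (ℱ : Filtration ℕ m) (A : ℕ → Set Ω) : Prop :=
  (∀ n, MeasurableSet[ℱ n] (A n)) ∧ A 2 = univ ∧
  ∀ n, 2 ≤ n → μ[(A (n + 1)).indicator (fun _ => (1 : ℝ)) | ℱ n] =ᵐ[μ]
    fun ω => ∏ h ∈ Finset.Icc 2 n, if ω ∈ A h then 1 - 1 / (h : ℝ) else 1

/-- The number of chosen integers in the open interval `(a, b)` minus the sum of their conditional
probabilities given the earlier decisions (in the model of Cramér: minus the sum of `1 / log r`). -/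
noncomputable def excess [m : MeasurableSpace Ω] (μ : Measure Ω) (ℱ : Filtration ℕ m) (A : ℕ → Set Ω) (a b : ℕ) (ω : Ω) : ℝ :=
  ∑ r ∈ Finset.Ioo a b, ((A r).indicator (fun _ => (1 : ℝ)) ω - (μ[(A r).indicator (fun _ => (1 : ℝ)) | ℱ (r - 1)]) ω)

open Pool.Agent.N740.HK Pool.Agent.R528.RM

lemma prod_inv (A : ℕ → Set Ω) (n : ℕ) (ω : Ω) [DecidablePred fun h => ω ∈ A h] :
    (∏ h ∈ Finset.Icc 2 n, if ω ∈ A h then 1 - 1 / (h : ℝ) else 1) = (Y A n ω)⁻¹ := by
  unfold Y
  rw [← Finset.prod_inv_distrib]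
  refine Finset.prod_congr rfl fun h hh => ?_
  have h2 : (2 : ℝ) ≤ h := by exact_mod_cast (Finset.mem_Icc.1 hh).1
  by_cases hA : ω ∈ A h
  · rw [if_pos hA, if_pos hA, inv_div]
    field_simp
  · rw [if_neg hA, if_neg hA, inv_one]

lemma log_ratio : Tendsto (fun n : ℕ => (Real.log ((n + 1 : ℕ) : ℝ))⁻¹ * Real.log n) atTop (𝓝 1) := by
  have h1 : Tendsto (fun n : ℕ => Real.log ((n : ℝ) + 1) - Real.log n) atTop (𝓝 0) := by
    have h1 : Tendsto (fun n : ℕ => 1 + (1 : ℝ) / n) atTop (𝓝 (1 + 0)) :=
      tendsto_const_nhds.add tendsto_one_div_atTop_nhds_zero_nat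
    rw [add_zero] at h1
    have h2 := (Real.continuousAt_log (one_ne_zero)).tendsto.comp h1
    rw [Real.log_one] at h2
    refine h2.congr' ?_
    filter_upwards [eventually_gt_atTop 0] with n hn
    have hn' : (0 : ℝ) < n := by exact_mod_cast hn
    show Real.log (1 + 1 / (n : ℝ)) = _
    rw [← Real.log_div (by positivity) hn'.ne']
    congr 1
    field_simp
  have h2 : Tendsto (fun n : ℕ => Real.log ((n : ℝ) + 1)) atTop atTop :=
    Real.tendsto_log_atTop.comp (tendsto_atTop_add_const_right _ _ tendsto_natCast_atTop_atTop)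
  have h3 := h1.div_atTop h2
  have h4 : Tendsto (fun n : ℕ => 1 - (Real.log ((n : ℝ) + 1) - Real.log n) / Real.log ((n : ℝ) + 1)) atTop (𝓝 (1 - 0)) :=
    tendsto_const_nhds.sub h3
  rw [sub_zero] at h4
  refine h4.congr' ?_
  filter_upwards [h2.eventually_gt_atTop 0] with n hn
  push_cast
  field_simp
  ring


lemma root_T : ∀ᶠ n : ℕ in atTop, Real.log ((n * n - n : ℕ) : ℝ) < Real.sqrt n / 8 ∧ 0 < Real.log ((n * n - n : ℕ) : ℝ) := by
  filter_upwards [small_T.eventually_lt_const (show (0 : ℝ) < 1 / 192 by norm_num),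
    log_T.eventually_lt_const (show (2 : ℝ) < 3 by norm_num), log_T.eventually_const_lt (show (1 : ℝ) < 2 by norm_num),
    eventually_ge_atTop 3] with n h1 h2 h3 hn
  have hn3 : (3 : ℝ) ≤ n := by exact_mod_cast hn
  have hlog : 0 < Real.log (n : ℝ) := Real.log_pos (by linarith)
  rw [div_lt_iff₀ hlog] at h2
  rw [lt_div_iff₀ hlog] at h3
  rw [div_lt_iff₀ (by linarith)] at h1
  set T : ℝ := Real.log ((n * n - n : ℕ) : ℝ) with hT
  have hT0 : 0 < T := by linarith
  refine ⟨?_, hT0⟩
  rw [lt_div_iff₀ (by norm_num)]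
  apply Real.lt_sqrt_of_sq_lt
  nlinarith

end Pool.Agent.Results.MP_bf4c7f_nt.UnitDisc

open Pool.Agent.Results.MP_bf4c7f_nt.UnitDisc Pool.Agent.N740.HK Pool.Agent.R528.RM

/-- The random sieve of Hawkins is a sequential model, the model of Cramér is one for some filtration for which
the conditional probability of choosing `r ≥ 3` is `1 / log r`.  In every sequential model, almost surely, both
intervals `(n² - n, n²)` and `(n², n² + n)` contain chosen integers for all large `n`, and the set of limit points of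
the pairs of excesses of the two intervals, divided by `√n`, is exactly the closed unit disc; the distance of the
pairs to the disc tends to `0`. -/
theorem Pool.Agent.Results.MP_bf4c7f_nt.UnitDisc.result
    {Ω : Type} [m : MeasurableSpace Ω] (μ : Measure Ω) [IsProbabilityMeasure μ] (A : ℕ → Set Ω) :
    (CramerModel μ A → ∃ ℱ : Filtration ℕ m, SequentialModel μ ℱ A ∧
      ∀ᵐ ω ∂μ, ∀ a b : ℕ, 2 ≤ a → excess μ ℱ A a b ω =
        (∑ r ∈ Finset.Ioo a b, (A r).indicator (fun _ => (1 : ℝ)) ω) - ∑ r ∈ Finset.Ioo a b, 1 / Real.log r) ∧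
    ∀ ℱ : Filtration ℕ m,
    (HawkinsSieve μ ℱ A → SequentialModel μ ℱ A) ∧
    (SequentialModel μ ℱ A →
      ∀ᵐ ω ∂μ,
        (∀ᶠ n : ℕ in atTop, (∃ q, n ^ 2 - n < q ∧ q < n ^ 2 ∧ ω ∈ A q) ∧ ∃ q, n ^ 2 < q ∧ q < n ^ 2 + n ∧ ω ∈ A q) ∧
        {z : ℝ × ℝ | MapClusterPt z atTop (fun n : ℕ =>
            (excess μ ℱ A (n ^ 2 - n) (n ^ 2) ω / √n, excess μ ℱ A (n ^ 2) (n ^ 2 + n) ω / √n))} =
          {z : ℝ × ℝ | z.1 ^ 2 + z.2 ^ 2 ≤ 1} ∧
        ∀ ε : ℝ, 0 < ε → ∀ᶠ n : ℕ in atTop,
          (excess μ ℱ A (n ^ 2 - n) (n ^ 2) ω / √n) ^ 2 + (excess μ ℱ A (n ^ 2) (n ^ 2 + n) ω / √n) ^ 2 ≤ 1 + ε) := by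
  classical
  refine ⟨?_, fun ℱ => ⟨?_, ?_⟩⟩
  · rintro ⟨hA, hi, hp⟩
    have h1 : ∀ᵐ ω ∂μ, ∀ n, (μ[(A (n + 1)).indicator (fun _ => (1 : ℝ)) | gen hA n]) ω =
        (μ (A (n + 1))).toReal := ae_all_iff.2 fun n => dens_gen hA hi n
    refine ⟨gen hA, ⟨gen_meas hA, ?_⟩, ?_⟩
    · filter_upwards [h1] with ω hω
      refine log_ratio.congr' ?_
      filter_upwards [eventually_ge_atTop 2] with n hn
      rw [hω, hp (n + 1) (by omega), ENNReal.toReal_ofReal, one_div]
      have : 0 ≤ Real.log ((n + 1 : ℕ) : ℝ) := Real.log_natCast_nonneg _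
      positivity
    · filter_upwards [h1] with ω hω a b ha
      unfold excess
      rw [Finset.sum_sub_distrib]
      congr 1
      refine Finset.sum_congr rfl fun r hr => ?_
      have hr := Finset.mem_Ioo.1 hr
      obtain ⟨t, rfl⟩ : ∃ t, r = t + 1 := ⟨r - 1, by omega⟩
      rw [Nat.add_sub_cancel, hω t, hp (t + 1) (by omega), ENNReal.toReal_ofReal]
      have : 0 ≤ Real.log ((t + 1 : ℕ) : ℝ) := Real.log_natCast_nonneg _
      positivity
  · rintro ⟨h1, h2, h3⟩
    have hs : Pool.Agent.N740.HK.HS μ ℱ A := ⟨h1, h2, fun n hn => by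
      filter_upwards [h3 n hn] with ω hω
      rw [← prod_inv]
      exact hω⟩
    exact ⟨h1, Pool.Agent.N740.HK.hawk_dens hs⟩
  · rintro ⟨hA, hd⟩
    have hex : ∀ a b ω, excess μ ℱ A a b ω = exc μ ℱ A a b ω := fun a b ω => rfl
    simp only [hex, sq (_ : ℕ)]
    filter_upwards [oppermann (μ := μ) hA hd, good_win (μ := μ) hA hd, DD'_ae (μ := μ) hA] with ω h1 h2 hD
    obtain ⟨h3, h4⟩ := h1
    refine ⟨?_, ?_, h3⟩
    · have hT : Tendsto (fun n : ℕ => n * n - n) atTop atTop := by
        refine tendsto_atTop_mono' atTop ?_ tendsto_id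
        filter_upwards [eventually_ge_atTop 2] with n hn
        have : 2 * n ≤ n * n := Nat.mul_le_mul_right n hn
        simp only [id]
        omega
      filter_upwards [hT.eventually (h2 (1 / 2) (by norm_num) (by norm_num)), h3 1 one_pos, root_T, eventually_ge_atTop 3]
        with n g1 g2 g3 hn
      obtain ⟨m', rfl⟩ : ∃ m', n = m' + 1 := ⟨n - 1, by omega⟩
      set T : ℕ := (m' + 1) * (m' + 1) - (m' + 1) with hTd
      have hTT : (m' + 1) * (m' + 1) = T + (m' + 1) := by
        have : m' + 1 ≤ (m' + 1) * (m' + 1) := Nat.le_mul_self _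
        omega
      have hle : 2 * (m' + 1) ≤ T := by
        have : 3 * (m' + 1) ≤ (m' + 1) * (m' + 1) := Nat.mul_le_mul_right _ hn
        omega
      have hg := g1 (2 * (m' + 1)) hle
      obtain ⟨g4, g5⟩ := g3
      set s : ℝ := √((m' + 1 : ℕ) : ℝ) with hs
      have hs0 : 0 < s := Real.sqrt_pos.2 (by positivity)
      have hs2 : s ^ 2 = (m' : ℝ) + 1 := by
        rw [hs, Real.sq_sqrt (by positivity)]
        push_cast
        ring
      have hmain : 2 * s < (m' : ℝ) * ((1 - 1 / 2) / Real.log T) := by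
        have hm2 : (2 : ℝ) ≤ m' := by exact_mod_cast (by omega : 2 ≤ m')
        rw [mul_div_assoc', lt_div_iff₀ g5]
        have : s * Real.log T < s * (s / 8) := mul_lt_mul_of_pos_left g4 hs0
        nlinarith
      have two : ∀ x : ℝ, (x / s) ^ 2 ≤ 1 + 1 → -(2 * s) ≤ x := by
        intro x hx
        have h5 : |x / s| ≤ 2 := abs_le_of_sq_le_sq (by linarith) (by norm_num)
        have h6 := (abs_le.1 h5).1
        rw [le_div_iff₀ hs0] at h6
        linarith
      constructor
      · have h5 := two (exc μ ℱ A T ((m' + 1) * (m' + 1)) ω) (by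
          have := sq_nonneg (exc μ ℱ A ((m' + 1) * (m' + 1)) ((m' + 1) * (m' + 1) + (m' + 1)) ω / s)
          linarith)
        by_contra hcon
        push Not at hcon
        have h6 : exc μ ℱ A T ((m' + 1) * (m' + 1)) ω = -∑ i ∈ Finset.range m', DD' μ ℱ A (T + i) ω := by
          unfold exc
          rw [hTT, show T + (m' + 1) = T + m' + 1 by ring, Ioo_sum, ← Finset.sum_neg_distrib]
          refine Finset.sum_congr rfl fun i hi => ?_
          have hi := Finset.mem_range.1 hi
          rw [indicator_of_notMem (hcon (T + i + 1) (by omega) (by omega)), hD, zero_sub]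
          rfl
        have h7 : (m' : ℝ) * ((1 - 1 / 2) / Real.log T) ≤ ∑ i ∈ Finset.range m', DD' μ ℱ A (T + i) ω := by
          have : ∑ i ∈ Finset.range m', ((1 - 1 / 2) / Real.log (T : ℝ)) = (m' : ℝ) * ((1 - 1 / 2) / Real.log T) := by simp
          rw [← this]
          refine Finset.sum_le_sum fun i hi => ?_
          have hi := Finset.mem_range.1 hi
          exact (hg i (by omega)).1
        linarith
      · have h5 := two (exc μ ℱ A ((m' + 1) * (m' + 1)) ((m' + 1) * (m' + 1) + (m' + 1)) ω) (by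
          have := sq_nonneg (exc μ ℱ A T ((m' + 1) * (m' + 1)) ω / s)
          linarith)
        by_contra hcon
        push Not at hcon
        have h6 : exc μ ℱ A ((m' + 1) * (m' + 1)) ((m' + 1) * (m' + 1) + (m' + 1)) ω =
            -∑ i ∈ Finset.range m', DD' μ ℱ A (T + (m' + 1 + i)) ω := by
          unfold exc
          rw [hTT, show T + (m' + 1) + (m' + 1) = T + (m' + 1) + m' + 1 by ring, Ioo_sum, ← Finset.sum_neg_distrib]
          refine Finset.sum_congr rfl fun i hi => ?_
          have hi := Finset.mem_range.1 hi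
          rw [indicator_of_notMem (hcon (T + (m' + 1) + i + 1) (by omega) (by omega)), hD, zero_sub,
            show T + (m' + 1) + i + 1 = T + (m' + 1 + i) + 1 by ring]
          rfl
        have h7 : (m' : ℝ) * ((1 - 1 / 2) / Real.log T) ≤ ∑ i ∈ Finset.range m', DD' μ ℱ A (T + (m' + 1 + i)) ω := by
          have : ∑ i ∈ Finset.range m', ((1 - 1 / 2) / Real.log (T : ℝ)) = (m' : ℝ) * ((1 - 1 / 2) / Real.log T) := by simp
          rw [← this]
          refine Finset.sum_le_sum fun i hi => ?_
          have hi := Finset.mem_range.1 hi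
          exact (hg (m' + 1 + i) (by omega)).1
        linarith
    · ext z
      simp only [mem_ofPred_eq]
      constructor
      · intro hz
        by_contra hcon
        push Not at hcon
        set ε : ℝ := (z.1 ^ 2 + z.2 ^ 2 - 1) / 2 with hε
        have hε0 : 0 < ε := by rw [hε]; linarith
        have hopen : IsOpen {w : ℝ × ℝ | 1 + ε < w.1 ^ 2 + w.2 ^ 2} :=
          isOpen_lt continuous_const ((continuous_fst.pow 2).add (continuous_snd.pow 2))
        have hmem : z ∈ {w : ℝ × ℝ | 1 + ε < w.1 ^ 2 + w.2 ^ 2} := by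
          show 1 + ε < z.1 ^ 2 + z.2 ^ 2
          rw [hε]
          linarith
        have h5 := (mapClusterPt_iff_frequently.1 hz) _ (hopen.mem_nhds hmem)
        obtain ⟨n, h6, h7⟩ := (h5.and_eventually (h3 ε hε0)).exists
        have h6' : 1 + ε < (exc μ ℱ A (n * n - n) (n * n) ω / √n) ^ 2 + (exc μ ℱ A (n * n) (n * n + n) ω / √n) ^ 2 := h6
        linarith
      · intro hz
        rw [mapClusterPt_iff_frequently]
        intro s hs
        obtain ⟨ε, hε, hsub⟩ := Metric.mem_nhds_iff.1 hs
        refine (h4 z.1 z.2 hz ε hε).mono ?_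
        rintro n ⟨h5, h6⟩
        apply hsub
        rw [Metric.mem_ball, Prod.dist_eq]
        exact max_lt h5 h6
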