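import Mathlib
import Pool.Agent.N417.SM.Opp
import Pool.Agent.N740.HK.Sch

/-!
# Oppermann's conjecture in random sets: the exact criterion

A random set of integers is built one integer at a time.  If the conditional probability of choosing
`r`, given the decisions before `r`, is at least (at most) `h r` for large `r`, then the convergence
(divergence) of one explicit series decides whether all the intervals `(x ^ 2 - x, x ^ 2)` and
`(x ^ 2, x ^ 2 + x)` with `x` large contain a chosen integer.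
-/

set_option autoImplicit false

open MeasureTheory Filter Set ProbabilityTheory
open scoped Topology

namespace Pool.Agent.Results.MP_bf4c7f_nt.ZeroOneCriterion

variable {Ω : Type}

/-- the conditional probability of choosing `n + 1`, given the decisions up to `n` -/
noncomputable def P [m : MeasurableSpace Ω] (μ : Measure Ω) (ℱ : Filtration ℕ m) (A : ℕ → Set Ω) (n : ℕ) (ω : Ω) : ℝ :=
  (μ[(A (n + 1)).indicator (fun _ => (1 : ℝ)) | ℱ n]) ω

/-- The model of Cramér: independent events, `n` is chosen with probability `1 / log n` for `n ≥ 3`. -/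
def CramerModel [MeasurableSpace Ω] (μ : Measure Ω) (A : ℕ → Set Ω) : Prop :=
  (∀ n, MeasurableSet (A n)) ∧ iIndepSet A μ ∧ ∀ n : ℕ, 3 ≤ n → μ (A n) = ENNReal.ofReal (1 / Real.log n)

open Classical in
/-- The random sieve of Hawkins: `2` is chosen, and given the decisions up to `n ≥ 2` the number
`n + 1` is chosen with probability `∏ (1 - 1 / h)`, the product over the chosen `2 ≤ h ≤ n`. -/
def HawkinsSieve [m : MeasurableSpace Ω] (μ : Measure Ω) (ℱ : Filtration ℕ m) (A : ℕ → Set Ω) : Prop :=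
  (∀ n, MeasurableSet[ℱ n] (A n)) ∧ A 2 = univ ∧
  ∀ n, 2 ≤ n → μ[(A (n + 1)).indicator (fun _ => (1 : ℝ)) | ℱ n] =ᵐ[μ]
    fun ω => ∏ h ∈ Finset.Icc 2 n, if ω ∈ A h then 1 - 1 / (h : ℝ) else 1

/-- the two assertions of Oppermann for the integer `x` and the set `S` in place of the primes -/
def Oppermann (S : Set ℕ) (x : ℕ) : Prop :=
  (∃ q ∈ S, x ^ 2 - x < q ∧ q < x ^ 2) ∧ ∃ q ∈ S, x ^ 2 < q ∧ q < x ^ 2 + x

/-- `∏ (1 - h r)` over the integers `r` with `a < r < b`: the probability that none of them is chosen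
if they are chosen independently with the probabilities `h r` -/
noncomputable def void (h : ℕ → ℝ) (a b : ℕ) : ℝ := ∏ r ∈ Finset.Ico (a + 1) b, (1 - h r)

/-- the sum of the two probabilities for the two intervals of Oppermann -/
noncomputable def term (h : ℕ → ℝ) (x : ℕ) : ℝ := void h (x ^ 2 - x) (x ^ 2) + void h (x ^ 2) (x ^ 2 + x)

open Pool.Agent.N740.HK Pool.Agent.R528.RM

lemma prod_inv (A : ℕ → Set Ω) (n : ℕ) (ω : Ω) [DecidablePred fun h => ω ∈ A h] :
    (∏ h ∈ Finset.Icc 2 n, if ω ∈ A h then 1 - 1 / (h : ℝ) else 1) = (Y A n ω)⁻¹ := by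
  unfold Y
  rw [← Finset.prod_inv_distrib]
  refine Finset.prod_congr rfl fun h hh => ?_
  have h2 : (2 : ℝ) ≤ h := by exact_mod_cast (Finset.mem_Icc.1 hh).1
  by_cases hA : ω ∈ A h
  · rw [if_pos hA, if_pos hA, inv_div]
    field_simp
  · rw [if_neg hA, if_neg hA, inv_one]

lemma log_ratio : Tendsto (fun n : ℕ => (Real.log ((n + 1 : ℕ) : ℝ))⁻¹ * Real.log n) atTop (𝓝 1) := by
  have h1 : Tendsto (fun n : ℕ => Real.log ((n : ℝ) + 1) - Real.log n) atTop (𝓝 0) := by
    have h1 : Tendsto (fun n : ℕ => 1 + (1 : ℝ) / n) atTop (𝓝 (1 + 0)) :=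
      tendsto_const_nhds.add tendsto_one_div_atTop_nhds_zero_nat
    rw [add_zero] at h1
    have h2 := (Real.continuousAt_log (one_ne_zero)).tendsto.comp h1
    rw [Real.log_one] at h2
    refine h2.congr' ?_
    filter_upwards [eventually_gt_atTop 0] with n hn
    have hn' : (0 : ℝ) < n := by exact_mod_cast hn
    show Real.log (1 + 1 / (n : ℝ)) = _
    rw [← Real.log_div (by positivity) hn'.ne']
    congr 1
    field_simp
  have h2 : Tendsto (fun n : ℕ => Real.log ((n : ℝ) + 1)) atTop atTop :=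
    Real.tendsto_log_atTop.comp (tendsto_atTop_add_const_right _ _ tendsto_natCast_atTop_atTop)
  have h3 := h1.div_atTop h2
  have h4 : Tendsto (fun n : ℕ => 1 - (Real.log ((n : ℝ) + 1) - Real.log n) / Real.log ((n : ℝ) + 1)) atTop (𝓝 (1 - 0)) :=
    tendsto_const_nhds.sub h3
  rw [sub_zero] at h4
  refine h4.congr' ?_
  filter_upwards [h2.eventually_gt_atTop 0] with n hn
  push_cast
  field_simp
  ring

end Pool.Agent.Results.MP_bf4c7f_nt.ZeroOneCriterion

open Pool.Agent.Results.MP_bf4c7f_nt.ZeroOneCriterion Pool.Agent.N740.HK Pool.Agent.R528.RM Pool.Agent.N417.SM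

/-- Let `S` be the set of the chosen integers.
(1) Independent choices with probabilities `h n`: almost surely the assertions of Oppermann hold for all
large `x` if `∑ term h x` converges, and almost surely they fail for infinitely many `x` if it diverges.
(2), (3) The same in adapted random sets of arbitrary dependence: convergence suffices if the conditional
probabilities are eventually at least `h`, divergence suffices for failure if they are eventually at most `h`.
(4) If they are eventually at least `(log n + c log log n) / (2 √n)` for some `c > 2`, the assertions hold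
for all large `x`; (5) if they are eventually at most `(log n + 2 log log n) / (2 √n)`, they fail for
infinitely many `x`. (6) If they are asymptotic to `1 / log n` (the density of the primes), the assertions
hold for all large `x`; (7) in particular in the model of Cramér and (8) in the random sieve of Hawkins. -/
theorem Pool.Agent.Results.MP_bf4c7f_nt.ZeroOneCriterion.result
    {Ω : Type} [m : MeasurableSpace Ω] (μ : Measure Ω) [IsProbabilityMeasure μ] (A : ℕ → Set Ω) :
    (∀ h : ℕ → ℝ, (∀ n, 0 ≤ h n ∧ h n ≤ 1) → (∀ n, MeasurableSet (A n)) → iIndepSet A μ →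
      (∀ n, μ (A n) = ENNReal.ofReal (h n)) →
      (Summable (term h) → ∀ᵐ ω ∂μ, ∀ᶠ x in atTop, Oppermann {k | ω ∈ A k} x) ∧
      (¬ Summable (term h) → ∀ᵐ ω ∂μ, ∃ᶠ x in atTop, ¬ Oppermann {k | ω ∈ A k} x)) ∧
    (∀ ℱ : Filtration ℕ m, (∀ n, MeasurableSet[ℱ n] (A n)) →
      (∀ h : ℕ → ℝ, (∀ n, 0 ≤ h n ∧ h n ≤ 1) →
        ((∀ᵐ ω ∂μ, ∀ᶠ n in atTop, h (n + 1) ≤ P μ ℱ A n ω) → Summable (term h) →
          ∀ᵐ ω ∂μ, ∀ᶠ x in atTop, Oppermann {k | ω ∈ A k} x) ∧
        ((∀ᵐ ω ∂μ, ∀ᶠ n in atTop, P μ ℱ A n ω ≤ h (n + 1)) → ¬ Summable (term h) →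
          ∀ᵐ ω ∂μ, ∃ᶠ x in atTop, ¬ Oppermann {k | ω ∈ A k} x)) ∧
      (∀ c : ℝ, 2 < c →
        (∀ᵐ ω ∂μ, ∀ᶠ n : ℕ in atTop, (Real.log n + c * Real.log (Real.log n)) / (2 * √(n : ℝ)) ≤ P μ ℱ A n ω) →
          ∀ᵐ ω ∂μ, ∀ᶠ x in atTop, Oppermann {k | ω ∈ A k} x) ∧
      ((∀ᵐ ω ∂μ, ∀ᶠ n : ℕ in atTop, P μ ℱ A n ω ≤ (Real.log n + 2 * Real.log (Real.log n)) / (2 * √(n : ℝ))) →
          ∀ᵐ ω ∂μ, ∃ᶠ x in atTop, ¬ Oppermann {k | ω ∈ A k} x) ∧
      ((∀ᵐ ω ∂μ, Tendsto (fun n : ℕ => P μ ℱ A n ω * Real.log n) atTop (𝓝 1)) →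
          ∀ᵐ ω ∂μ, ∀ᶠ x in atTop, Oppermann {k | ω ∈ A k} x)) ∧
    (CramerModel μ A → ∀ᵐ ω ∂μ, ∀ᶠ x in atTop, Oppermann {k | ω ∈ A k} x) ∧
    (∀ ℱ : Filtration ℕ m, HawkinsSieve μ ℱ A → ∀ᵐ ω ∂μ, ∀ᶠ x in atTop, Oppermann {k | ω ∈ A k} x) := by
  classical
  refine ⟨?_, ?_, ?_, ?_⟩
  · intro h h01 hA hi hp
    have h1 : ∀ᵐ ω ∂μ, ∀ n, dens μ (gen hA) A n ω = h (n + 1) := by
      have h2 : ∀ᵐ ω ∂μ, ∀ n, dens μ (gen hA) A n ω = (μ (A (n + 1))).toReal :=
        ae_all_iff.2 fun n => dens_gen hA hi n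
      filter_upwards [h2] with ω hω n
      rw [hω, hp, ENNReal.toReal_ofReal (h01 _).1]
    constructor
    · intro hs
      exact opp_fin (gen_meas hA) (fun n => (h01 n).2) (by
        filter_upwards [h1] with ω hω
        exact Eventually.of_forall fun n => (hω n).ge) hs
    · intro hs
      exact opp_io (gen_meas hA) (fun n => (h01 n).1) (fun n => (h01 n).2) (by
        filter_upwards [h1] with ω hω
        exact Eventually.of_forall fun n => (hω n).le) hs
  · intro ℱ hA
    refine ⟨fun h h01 => ⟨fun hge hs => ?_, fun hle hs => ?_⟩, fun c hc hge => ?_, fun hle => ?_, fun hd => ?_⟩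
    · exact opp_fin hA (fun n => (h01 n).2) hge hs
    · exact opp_io hA (fun n => (h01 n).1) (fun n => (h01 n).2) hle hs
    · exact opp_above hA hc hge
    · exact opp_below hA hle
    · exact opp_primes hA hd
  · rintro ⟨hA, hi, hp⟩
    refine opp_primes (gen_meas hA) ?_
    have h1 : ∀ᵐ ω ∂μ, ∀ n, dens μ (gen hA) A n ω = (μ (A (n + 1))).toReal :=
      ae_all_iff.2 fun n => dens_gen hA hi n
    filter_upwards [h1] with ω hω
    refine log_ratio.congr' ?_
    filter_upwards [eventually_ge_atTop 2] with n hn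
    rw [hω, hp (n + 1) (by omega), ENNReal.toReal_ofReal, one_div]
    have : 0 ≤ Real.log ((n + 1 : ℕ) : ℝ) := Real.log_natCast_nonneg _
    positivity
  · rintro ℱ ⟨h1, h2, h3⟩
    have hs : Pool.Agent.N740.HK.HS μ ℱ A := ⟨h1, h2, fun n hn => by
      filter_upwards [h3 n hn] with ω hω
      rw [← prod_inv]
      exact hω⟩
    exact opp_primes h1 (Pool.Agent.N740.HK.hawk_dens hs)
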